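import Pool.Agent.N284.Bohr.Sharp

set_option autoImplicit false

namespace Pool.Agent.Results.MP_8fe0b8_an.BohrRadius

open Pool.Agent.N284.Bohr

/-- For every `K > 1` the largest radius up to which the Bohr inequality holds in the whole class
`𝓕_K` is `r_K`. -/
theorem result (K : ℝ) (hK : 1 < K) :
    IsGreatest {R : ℝ | 0 ≤ R ∧ ∀ h g : ℂ → ℂ, InClass K h g → ∀ r, 0 ≤ r → r ≤ R →
      BohrIneq h g r} (rK K) :=
  main K hK

end Pool.Agent.Results.MP_8fe0b8_an.BohrRadius
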